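import Mathlib

/-! Greedy expansions and the finite word property: definitions and first lemmas. -/

namespace Pool.Agent.X114.FW

open Filter Topology Polynomial

/-- The sequence `b a₀ a₁ ...`. -/
def cons (b : Bool) (a : ℕ → Bool) : ℕ → Bool
  | 0 => b
  | n + 1 => a n

/-- The concatenation of a finite word and a sequence. -/
def cat (w : List Bool) (a : ℕ → Bool) : ℕ → Bool := w.foldr cons a

/-- `a` is the infinite concatenation `s₀ s₁ s₂ ...` (`b` is the sequence of the tails). -/
def IsConcat (s : ℕ → List Bool) (a : ℕ → Bool) : Prop :=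
  ∃ b : ℕ → ℕ → Bool, b 0 = a ∧ ∀ k, b k = cat (s k) (b (k + 1))

/-- `∑ a_n z^{-n}` (`n ≥ 1`; `a 0` is the first digit). -/
noncomputable def val {K : Type} [NormedField K] (z : K) (a : ℕ → Bool) : K :=
  ∑' n, ((a n).toNat : K) / z ^ (n + 1)

/-- The greedy map. -/
noncomputable def greedyMap (β x : ℝ) : ℝ := if x < 1 / β then β * x else β * x - 1

/-- The greedy expansion. -/
noncomputable def greedy (β x : ℝ) : ℕ → Bool := fun n => decide (1 / β ≤ (greedyMap β)^[n] x)

/-- The normalisation map `P_β`. -/
noncomputable def normalise (β : ℝ) (a : ℕ → Bool) : ℕ → Bool := greedy β (val β a)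

/-- The finite word property of `P_β`. -/
def FiniteWordProperty (β : ℝ) : Prop :=
  ∃ Ω : Set (List Bool), [] ∉ Ω ∧ (∀ v ∈ Ω, ∀ w ∈ Ω, v <+: w → v = w) ∧
    HasSum (fun w : Ω => (1 / 2 : ℝ) ^ (w : List Bool).length) 1 ∧
    (∃ Q : List Bool → List Bool, (∀ w ∈ Ω, (Q w).length = w.length) ∧
      ∀ (s : ℕ → List Bool) (a : ℕ → Bool), (∀ n, s n ∈ Ω) → IsConcat s a →
        IsConcat (fun n => Q (s n)) (normalise β a)) ∧
    Summable fun w : Ω => ((w : List Bool).length : ℝ) * (1 / 2) ^ (w : List Bool).length

@[simp] theorem cat_nil (a : ℕ → Bool) : cat [] a = a := rfl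

@[simp] theorem cat_cons (b : Bool) (w : List Bool) (a : ℕ → Bool) :
    cat (b :: w) a = cons b (cat w a) := rfl

theorem cat_append (v w : List Bool) (a : ℕ → Bool) : cat (v ++ w) a = cat v (cat w a) := by
  simp [cat, List.foldr_append]

theorem cat_congr (w : List Bool) (a a' : ℕ → Bool) (n : ℕ) (h : n < w.length) :
    cat w a n = cat w a' n := by
  induction w generalizing n with
  | nil => simp at h
  | cons b w ih =>
    cases n with
    | zero => rfl
    | succ n => exact ih n (by simpa using h)

theorem cat_ge (w : List Bool) (a : ℕ → Bool) (n : ℕ) : cat w a (w.length + n) = a n := by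
  induction w generalizing n with
  | nil => simp
  | cons b w ih =>
    have : (b :: w).length + n = (w.length + n) + 1 := by simp; omega
    rw [this]
    exact ih n

theorem cat_inj {v w : List Bool} (h : v.length = w.length) {a c : ℕ → Bool}
    (e : cat v a = cat w c) : v = w ∧ a = c := by
  induction v generalizing w with
  | nil =>
    cases w with
    | nil => exact ⟨rfl, e⟩
    | cons b w => simp at h
  | cons b v ih =>
    cases w with
    | nil => simp at h
    | cons b' w =>
      have h0 := congrFun e 0
      have h1 : cat v a = cat w c := funext fun n => congrFun e (n + 1)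
      obtain ⟨rfl, rfl⟩ := ih (by simpa using h) h1
      simp only [cat_cons, cons] at h0
      subst h0
      exact ⟨rfl, rfl⟩

theorem concat_unique {s : ℕ → List Bool} (hs : ∀ k, s k ≠ []) {a a' : ℕ → Bool}
    (h : IsConcat s a) (h' : IsConcat s a') : a = a' := by
  obtain ⟨b, rfl, hb⟩ := h
  obtain ⟨b', rfl, hb'⟩ := h'
  have key : ∀ n k, b k n = b' k n := by
    intro n
    induction n using Nat.strong_induction_on with
    | _ n ih =>
      intro k
      rw [hb k, hb' k]
      by_cases hn : n < (s k).length
      · exact cat_congr _ _ _ _ hn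
      · obtain ⟨m, rfl⟩ : ∃ m, n = (s k).length + m := ⟨n - (s k).length, by omega⟩
        rw [cat_ge, cat_ge]
        have : 0 < (s k).length := List.length_pos_iff.2 (hs k)
        exact ih m (by omega) (k + 1)
  exact funext fun n => key n 0

section val

variable {K : Type} [NormedField K] [CompleteSpace K]

theorem toNat_norm_le (b : Bool) : ‖((b.toNat : ℕ) : K)‖ ≤ 1 := by
  cases b <;> simp

theorem summable_val {z : K} (hz : 1 < ‖z‖) (a : ℕ → Bool) :
    Summable fun n => ((a n).toNat : K) / z ^ (n + 1) := by
  refine Summable.of_norm_bounded (g := fun n : ℕ => ‖z‖⁻¹ ^ (n + 1)) ?_ fun n => ?_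
  · exact (summable_nat_add_iff 1).2
      (summable_geometric_of_lt_one (by positivity) (inv_lt_one_of_one_lt₀ hz))
  · rw [norm_div, norm_pow, inv_pow, div_eq_mul_inv]
    exact mul_le_of_le_one_left (by positivity) (toNat_norm_le _)

theorem val_cons {z : K} (hz : 1 < ‖z‖) (b : Bool) (a : ℕ → Bool) :
    val z (cons b a) = ((b.toNat : K) + val z a) / z := by
  have hz0 : z ≠ 0 := by rintro rfl; simp at hz; linarith
  unfold val
  rw [(summable_val hz (cons b a)).tsum_eq_zero_add, add_div]
  congr 1
  · simp [cons]
  · rw [← tsum_div_const]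
    refine tsum_congr fun n => ?_
    simp only [cons]
    rw [pow_succ, div_mul_eq_div_div]

theorem norm_val_le {z : K} (hz : 1 < ‖z‖) (a : ℕ → Bool) : ‖val z a‖ ≤ 1 / (‖z‖ - 1) := by
  have hs : Summable fun n : ℕ => ‖z‖⁻¹ ^ (n + 1) := (summable_nat_add_iff 1).2
      (summable_geometric_of_lt_one (by positivity) (inv_lt_one_of_one_lt₀ hz))
  refine (tsum_of_norm_bounded (g := fun n : ℕ => ‖z‖⁻¹ ^ (n + 1)) hs.hasSum fun n => ?_).trans ?_
  · rw [norm_div, norm_pow, inv_pow, div_eq_mul_inv]
    exact mul_le_of_le_one_left (by positivity) (toNat_norm_le _)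
  · apply le_of_eq
    simp_rw [pow_succ]
    rw [tsum_mul_right, tsum_geometric_of_lt_one (by positivity) (inv_lt_one_of_one_lt₀ hz)]
    have : ‖z‖ ≠ 0 := by positivity
    have : ‖z‖ - 1 ≠ 0 := by linarith
    field_simp

/-- The value of a finite word. -/
noncomputable def wv (z : K) : List Bool → K
  | [] => 0
  | b :: w => ((b.toNat : K) + wv z w) / z

theorem val_cat {z : K} (hz : 1 < ‖z‖) (w : List Bool) (a : ℕ → Bool) :
    val z (cat w a) = wv z w + val z a / z ^ w.length := by
  have hz0 : z ≠ 0 := by rintro rfl; simp at hz; linarith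
  induction w with
  | nil => simp [wv]
  | cons b w ih =>
    rw [cat_cons, val_cons hz, ih, wv, List.length_cons, pow_succ]
    field_simp
    ring

end val

/-- The integer polynomial of a word. -/
noncomputable def pw : List Bool → ℤ[X]
  | [] => 0
  | b :: w => C (b.toNat : ℤ) * X ^ w.length + pw w

theorem aeval_pw {K : Type} [NormedField K] {z : K} (hz : z ≠ 0) (w : List Bool) :
    aeval z (pw w) = z ^ w.length * wv z w := by
  induction w with
  | nil => simp [pw, wv]
  | cons b w ih =>
    rw [pw, wv, map_add, ih, List.length_cons, pow_succ]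
    simp
    field_simp

theorem wv_conj {K L : Type} [NormedField K] [NormedField L] {z : K} {y : L} (hz : z ≠ 0)
    (hy : y ≠ 0) (hc : ∀ p : ℤ[X], aeval z p = 0 → aeval y p = 0) {v w : List Bool}
    (hl : v.length = w.length) (h : wv z v = wv z w) : wv y v = wv y w := by
  have h1 : aeval z (pw v - pw w) = 0 := by
    rw [map_sub, aeval_pw hz, aeval_pw hz, hl, h, sub_self]
  have h2 := hc _ h1
  rw [map_sub, aeval_pw hy, aeval_pw hy, hl, ← mul_sub] at h2
  exact sub_eq_zero.1 ((mul_eq_zero.1 h2).resolve_left (pow_ne_zero _ hy))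

theorem degree_pw_lt (w : List Bool) : (pw w).degree < w.length := by
  induction w with
  | nil => simp [pw]
  | cons b w ih =>
    rw [pw, List.length_cons]
    refine lt_of_le_of_lt (degree_add_le _ _) (max_lt ?_ (ih.trans ?_))
    · refine lt_of_le_of_lt (degree_C_mul_X_pow_le _ _) ?_
      exact_mod_cast Nat.lt_succ_self _
    · exact_mod_cast Nat.lt_succ_self _

theorem exists_monic {v w : List Bool} (hl : v.length = w.length) (h : v ≠ w) :
    ∃ p : ℤ[X], p.Monic ∧ (p = pw v - pw w ∨ p = -(pw v - pw w)) := by
  induction v generalizing w with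
  | nil =>
    cases w with
    | nil => exact absurd rfl h
    | cons b w => simp at hl
  | cons b v ih =>
    cases w with
    | nil => simp at hl
    | cons b' w =>
      have hl' : v.length = w.length := by simpa using hl
      have hd : (pw v - pw w).degree < v.length := by
        refine lt_of_le_of_lt (degree_sub_le _ _) (max_lt (degree_pw_lt v) ?_)
        rw [hl']
        exact degree_pw_lt w
      by_cases hb : b = b'
      · subst hb
        have hvw : v ≠ w := fun e => h (by rw [e])
        obtain ⟨p, hp, hp'⟩ := ih hl' hvw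
        refine ⟨p, hp, ?_⟩
        have e : pw (b :: v) - pw (b :: w) = pw v - pw w := by
          rw [pw, pw, hl']; ring
        rw [e]
        exact hp'
      · cases b <;> cases b'
        · exact absurd rfl hb
        · refine ⟨X ^ v.length + -(pw v - pw w), monic_X_pow_add (by rwa [degree_neg]), Or.inr ?_⟩
          rw [pw, pw, hl']; simp; ring
        · refine ⟨X ^ v.length + (pw v - pw w), monic_X_pow_add hd, Or.inl ?_⟩
          rw [pw, pw, hl']; simp; ring
        · exact absurd rfl hb

end Pool.Agent.X114.FW
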