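import Pool.Agent.X114.FW.FW1

/-! Greedy expansions and block codes. -/

namespace Pool.Agent.X114.FW

open Filter Topology Polynomial

theorem val_nonneg {β : ℝ} (hβ : 1 < β) (a : ℕ → Bool) : 0 ≤ val β a :=
  tsum_nonneg fun n => by positivity

theorem val_le {β : ℝ} (hβ : 1 < β) (a : ℕ → Bool) : val β a ≤ 1 / (β - 1) := by
  have h := norm_val_le (z := β) (by rwa [Real.norm_eq_abs, abs_of_pos (by linarith)]) a
  rw [Real.norm_eq_abs, Real.norm_eq_abs, abs_of_pos (by linarith : 0 < β)] at h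
  exact (le_abs_self _).trans h

theorem one_lt_norm {β : ℝ} (hβ : 1 < β) : 1 < ‖β‖ := by
  rwa [Real.norm_eq_abs, abs_of_pos (by linarith)]

theorem M_mul {β : ℝ} (hβ : 1 < β) : β * (1 / (β - 1)) = 1 / (β - 1) + 1 := by
  have : β - 1 ≠ 0 := by linarith
  field_simp
  ring

theorem one_lt_M {β : ℝ} (hβ : 1 < β) (hβ2 : β < 2) : 1 < 1 / (β - 1) := by
  rw [lt_div_iff₀ (by linarith)]
  linarith

theorem greedyMap_mem {β : ℝ} (hβ : 1 < β) (hβ2 : β < 2) {x : ℝ} (h0 : 0 ≤ x)
    (h1 : x ≤ 1 / (β - 1)) : 0 ≤ greedyMap β x ∧ greedyMap β x ≤ 1 / (β - 1) := by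
  have hM := M_mul hβ
  have hM1 := one_lt_M hβ hβ2
  have hb : (0 : ℝ) < β := by linarith
  unfold greedyMap
  split_ifs with h
  · rw [lt_div_iff₀ hb] at h
    constructor
    · positivity
    · nlinarith
  · push Not at h
    rw [div_le_iff₀ hb] at h
    constructor
    · nlinarith
    · nlinarith

theorem greedy_eq_cons (β x : ℝ) :
    greedy β x = cons (decide (1 / β ≤ x)) (greedy β (greedyMap β x)) := by
  funext n
  cases n with
  | zero => rfl
  | succ n => rfl

theorem greedy_rel {β x : ℝ} (hβ : 1 < β) :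
    x = (((decide (1 / β ≤ x)).toNat : ℝ) + greedyMap β x) / β := by
  have hb : β ≠ 0 := by linarith
  unfold greedyMap
  by_cases h : x < 1 / β
  · have h' : ¬ (1 / β ≤ x) := not_le.2 h
    simp only [h, h', if_true, decide_false, Bool.toNat_false]
    field_simp
    simp
  · have h' : 1 / β ≤ x := not_lt.1 h
    simp only [h, h', if_false, decide_true, Bool.toNat_true]
    field_simp
    simp

theorem eq_zero_of_contract {E : Type} [NormedAddCommGroup E] {c C : ℝ} (hc : 1 < c)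
    {e : ℕ → E} (h : ∀ n, ‖e n‖ ≤ ‖e (n + 1)‖ / c) (hC : ∀ n, ‖e n‖ ≤ C) : e 0 = 0 := by
  have key : ∀ n, ‖e 0‖ ≤ C / c ^ n := by
    intro n
    have h1 : ‖e 0‖ ≤ ‖e n‖ / c ^ n := by
      induction n with
      | zero => simp
      | succ n ih =>
        refine ih.trans ?_
        rw [pow_succ', ← div_div]
        exact div_le_div_of_nonneg_right (h n) (by positivity)
    exact h1.trans (div_le_div_of_nonneg_right (hC n) (by positivity))
  have hlim : Tendsto (fun n : ℕ => C / c ^ n) atTop (𝓝 0) :=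
    tendsto_const_nhds.div_atTop (tendsto_pow_atTop_atTop_of_one_lt hc)
  have := ge_of_tendsto' hlim key
  exact norm_eq_zero.1 (le_antisymm this (norm_nonneg _))

theorem val_greedy {β : ℝ} (hβ : 1 < β) (hβ2 : β < 2) {x : ℝ} (h0 : 0 ≤ x)
    (h1 : x ≤ 1 / (β - 1)) : val β (greedy β x) = x := by
  have hmem : ∀ n, 0 ≤ (greedyMap β)^[n] x ∧ (greedyMap β)^[n] x ≤ 1 / (β - 1) := by
    intro n
    induction n with
    | zero => exact ⟨h0, h1⟩
    | succ n ih =>
      rw [Function.iterate_succ_apply']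
      exact greedyMap_mem hβ hβ2 ih.1 ih.2
  have key := eq_zero_of_contract (c := β) (C := 1 / (β - 1)) hβ
    (e := fun n => val β (greedy β ((greedyMap β)^[n] x)) - (greedyMap β)^[n] x) ?_ ?_
  · simpa [sub_eq_zero] using key
  · intro n
    have hb : (0 : ℝ) < β := by linarith
    set y := (greedyMap β)^[n] x with hy
    have e1 : (greedyMap β)^[n + 1] x = greedyMap β y := by
      rw [Function.iterate_succ_apply']
    simp only [e1]
    have e2 : val β (greedy β y) - y = (val β (greedy β (greedyMap β y)) - greedyMap β y) / β := by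
      rw [greedy_eq_cons β y, val_cons (one_lt_norm hβ)]
      have e3 := greedy_rel (x := y) hβ
      have e4 : (((decide (1 / β ≤ y)).toNat : ℝ) + val β (greedy β (greedyMap β y))) / β -
          (((decide (1 / β ≤ y)).toNat : ℝ) + greedyMap β y) / β =
          (val β (greedy β (greedyMap β y)) - greedyMap β y) / β := by ring
      linarith
    rw [e2, norm_div, Real.norm_eq_abs β, abs_of_pos hb]
  · intro n
    have h2 := val_nonneg hβ (greedy β ((greedyMap β)^[n] x))
    have h3 := val_le hβ (greedy β ((greedyMap β)^[n] x))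
    have h4 := hmem n
    rw [Real.norm_eq_abs, abs_le]
    constructor <;> linarith [h4.1, h4.2]

theorem val_normalise {β : ℝ} (hβ : 1 < β) (hβ2 : β < 2) (a : ℕ → Bool) :
    val β (normalise β a) = val β a :=
  val_greedy hβ hβ2 (val_nonneg hβ a) (val_le hβ a)

structure Code (β : ℝ) (Ω : Set (List Bool)) (Q : List Bool → List Bool) : Prop where
  nil : [] ∉ Ω
  pre : ∀ v ∈ Ω, ∀ w ∈ Ω, v <+: w → v = w
  max : ∀ w : List Bool, ∃ v ∈ Ω, v <+: w ∨ w <+: v
  len : ∀ w ∈ Ω, (Q w).length = w.length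
  conc : ∀ (s : ℕ → List Bool) (a : ℕ → Bool), (∀ n, s n ∈ Ω) → IsConcat s a →
        IsConcat (fun n => Q (s n)) (normalise β a)

namespace Code

variable {β : ℝ} {Ω : Set (List Bool)} {Q : List Bool → List Bool}

theorem ne (h : Code β Ω Q) {w : List Bool} (hw : w ∈ Ω) : w ≠ [] := fun e => h.nil (e ▸ hw)

theorem Q_ne (h : Code β Ω Q) {w : List Bool} (hw : w ∈ Ω) : Q w ≠ [] := by
  rw [← List.length_pos_iff, h.len w hw, List.length_pos_iff]
  exact h.ne hw

theorem step (h : Code β Ω Q) {s : ℕ → List Bool} {b : ℕ → ℕ → Bool} (hs : ∀ k, s k ∈ Ω)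
    (hb : ∀ k, b k = cat (s k) (b (k + 1))) (k : ℕ) :
    normalise β (b k) = cat (Q (s k)) (normalise β (b (k + 1))) := by
  have h1 : ∀ k, IsConcat (fun n => s (n + k)) (b k) := fun k =>
    ⟨fun n => b (n + k), by simp, fun n => by
      show b (n + k) = cat (s (n + k)) (b (n + 1 + k))
      have e : n + 1 + k = n + k + 1 := by omega
      rw [e]
      exact hb (n + k)⟩
  obtain ⟨c, hc0, hc⟩ := h.conc _ _ (fun n => hs (n + k)) (h1 k)
  have h2 := h.conc _ _ (fun n => hs (n + (k + 1))) (h1 (k + 1))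
  have h3 : IsConcat (fun n => Q (s (n + (k + 1)))) (c 1) :=
    ⟨fun n => c (n + 1), rfl, fun n => by
      show c (n + 1) = cat (Q (s (n + (k + 1)))) (c (n + 1 + 1))
      have e : n + (k + 1) = n + 1 + k := by omega
      rw [e]
      exact hc (n + 1)⟩
  have h4 := concat_unique (fun n => h.Q_ne (hs (n + (k + 1)))) h3 h2
  rw [← hc0, hc 0, ← h4]
  simp

theorem wv_eq (h : Code β Ω Q) (hβ : 1 < β) (hβ2 : β < 2) {s : ℕ → List Bool}
    {b : ℕ → ℕ → Bool} (hs : ∀ k, s k ∈ Ω) (hb : ∀ k, b k = cat (s k) (b (k + 1))) (k : ℕ) :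
    wv β (s k) = wv β (Q (s k)) := by
  have h1 := val_normalise hβ hβ2 (b k)
  rw [h.step hs hb k, val_cat (one_lt_norm hβ), val_normalise hβ hβ2, h.len _ (hs k), hb k,
    val_cat (one_lt_norm hβ)] at h1
  exact (add_right_cancel h1).symm

theorem val_eq (h : Code β Ω Q) (hβ : 1 < β) (hβ2 : β < 2) {γ : ℂ} (hγ : 1 < ‖γ‖)
    (hc : ∀ p : ℤ[X], aeval β p = 0 → aeval γ p = 0) {s : ℕ → List Bool}
    {b : ℕ → ℕ → Bool} (hs : ∀ k, s k ∈ Ω) (hb : ∀ k, b k = cat (s k) (b (k + 1))) :
    val γ (b 0) = val γ (normalise β (b 0)) := by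
  have hγ0 : γ ≠ 0 := by rintro rfl; simp at hγ; linarith
  have key := eq_zero_of_contract (c := ‖γ‖) (C := 1 / (‖γ‖ - 1) + 1 / (‖γ‖ - 1)) hγ
    (e := fun n => val γ (b n) - val γ (normalise β (b n))) ?_ ?_
  · exact sub_eq_zero.1 key
  · intro n
    have h1 : wv γ (s n) = wv γ (Q (s n)) :=
      wv_conj (by linarith) hγ0 hc (h.len _ (hs n)).symm (h.wv_eq hβ hβ2 hs hb n)
    have h2 : val γ (b n) - val γ (normalise β (b n)) =
        (val γ (b (n + 1)) - val γ (normalise β (b (n + 1)))) / γ ^ (s n).length := by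
      rw [h.step hs hb n, val_cat hγ, h.len _ (hs n), ← h1, hb n, val_cat hγ]
      ring
    show ‖val γ (b n) - val γ (normalise β (b n))‖ ≤ _
    rw [h2, norm_div, norm_pow]
    refine div_le_div_of_nonneg_left (norm_nonneg _) (by positivity) ?_
    have h3 : 1 ≤ (s n).length := List.length_pos_iff.2 (h.ne (hs n))
    calc ‖γ‖ = ‖γ‖ ^ 1 := (pow_one _).symm
      _ ≤ _ := pow_le_pow_right₀ hγ.le h3
  · intro n
    refine (norm_sub_le _ _).trans (add_le_add (norm_val_le hγ _) (norm_val_le hγ _))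

end Code

end Pool.Agent.X114.FW
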