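import Pool.Agent.X114.FW.FW2

/-! Generic sequences for a block code. -/

namespace Pool.Agent.X114.FW

open Filter Topology Polynomial

theorem flatten_ne {S : Set (List Bool)} (h0 : [] ∉ S) {L : List (List Bool)}
    (hL : ∀ w ∈ L, w ∈ S) (h : L.flatten = []) : L = [] := by
  cases L with
  | nil => rfl
  | cons v L =>
    rw [List.flatten_cons, List.append_eq_nil_iff] at h
    exact absurd (h.1 ▸ hL v (List.mem_cons_self)) h0

theorem uniquelyDecodable {S : Set (List Bool)} (h0 : [] ∉ S)
    (hp : ∀ v ∈ S, ∀ w ∈ S, v <+: w → v = w) : InformationTheory.UniquelyDecodable S := by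
  intro L₁
  induction L₁ with
  | nil =>
    intro L₂ _ h2 e
    exact (flatten_ne h0 h2 e.symm).symm
  | cons v L ih =>
    intro L₂ h1 h2 e
    cases L₂ with
    | nil => exact flatten_ne h0 h1 e
    | cons w L' =>
      rw [List.flatten_cons, List.flatten_cons] at e
      have hv := h1 v List.mem_cons_self
      have hw := h2 w List.mem_cons_self
      have hvw : v = w := by
        have p1 : v <+: v ++ L.flatten := List.prefix_append _ _
        have p2 : w <+: v ++ L.flatten := e ▸ List.prefix_append _ _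
        rcases List.prefix_or_prefix_of_prefix p1 p2 with h | h
        · exact hp v hv w hw h
        · exact (hp w hw v hv h).symm
      subst hvw
      have e' := List.append_cancel_left e
      rw [ih L' (fun x hx => h1 x (List.mem_cons_of_mem _ hx))
        (fun x hx => h2 x (List.mem_cons_of_mem _ hx)) e']

theorem maximal {Ω : Set (List Bool)} (h0 : [] ∉ Ω) (hp : ∀ v ∈ Ω, ∀ w ∈ Ω, v <+: w → v = w)
    (hs : HasSum (fun w : Ω => (1 / 2 : ℝ) ^ (w : List Bool).length) 1) (w : List Bool) :
    ∃ v ∈ Ω, v <+: w ∨ w <+: v := by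
  classical
  by_contra hcon
  push Not at hcon
  have hw : w ≠ [] := by
    rintro rfl
    have : Ω = ∅ := by
      ext v
      simp only [Set.mem_empty_iff_false, iff_false]
      exact fun hv => (hcon v hv).2 List.nil_prefix
    subst this
    have h1 := hs.unique hasSum_empty
    norm_num at h1
  have key : ∀ F : Finset Ω, ∑ v ∈ F, (1 / 2 : ℝ) ^ (v : List Bool).length ≤
      1 - (1 / 2) ^ w.length := by
    intro F
    set S : Finset (List Bool) := insert w (F.map (Function.Embedding.subtype _)) with hS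
    have hmem : ∀ v ∈ S, v = w ∨ v ∈ Ω := by
      intro v hv
      rw [hS, Finset.mem_insert, Finset.mem_map] at hv
      rcases hv with rfl | ⟨x, _, rfl⟩
      · exact Or.inl rfl
      · exact Or.inr x.2
    have hnot : w ∉ F.map (Function.Embedding.subtype _) := by
      intro hv
      rw [Finset.mem_map] at hv
      obtain ⟨x, _, hx⟩ := hv
      have : w ∈ Ω := hx ▸ x.2
      exact (hcon w this).1 List.prefix_rfl
    have hud : InformationTheory.UniquelyDecodable (S : Set (List Bool)) := by
      apply uniquelyDecodable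
      · intro h
        rcases hmem _ h with h | h
        · exact hw h.symm
        · exact h0 h
      · intro v hv v' hv' hpre
        rcases hmem _ hv with rfl | h1 <;> rcases hmem _ hv' with rfl | h2
        · rfl
        · exact absurd hpre (hcon _ h2).2
        · exact absurd hpre (hcon _ h1).1
        · exact hp _ h1 _ h2 hpre
    have h3 := InformationTheory.kraft_mcmillan_inequality hud
    rw [hS, Finset.sum_insert hnot, Finset.sum_map] at h3
    simp only [Fintype.card_bool, Function.Embedding.subtype_apply, Nat.cast_ofNat] at h3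
    linarith
  have h4 := hasSum_le_of_sum_le hs key
  have h5 : (0 : ℝ) < (1 / 2) ^ w.length := by positivity
  linarith

/-- Sequences that begin with `k` blocks. -/
def V (Ω : Set (List Bool)) : ℕ → Set (ℕ → Bool)
  | 0 => Set.univ
  | k + 1 => {a | ∃ w ∈ Ω, ∃ c ∈ V Ω k, a = cat w c}

theorem cat_prefix {v w : List Bool} {a c : ℕ → Bool} (h : cat v a = cat w c)
    (hl : v.length ≤ w.length) : v <+: w := by
  have h1 : cat v a = cat (w.take v.length) (cat (w.drop v.length) c) := by
    rw [← cat_append, List.take_append_drop, h]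
  have h2 := (cat_inj (by simp [hl]) h1).1
  rw [h2]
  exact List.take_prefix _ _

namespace Code

variable {β : ℝ} {Ω : Set (List Bool)} {Q : List Bool → List Bool}

theorem same (h : Code β Ω Q) {v w : List Bool} (hv : v ∈ Ω) (hw : w ∈ Ω) {a c : ℕ → Bool}
    (e : cat v a = cat w c) : v = w ∧ a = c := by
  have hvw : v = w := by
    rcases le_total v.length w.length with hl | hl
    · exact h.pre v hv w hw (cat_prefix e hl)
    · exact (h.pre w hw v hv (cat_prefix e.symm hl)).symm
  exact ⟨hvw, (cat_inj (by rw [hvw]) e).2⟩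

theorem tail (h : Code β Ω Q) {a : ℕ → Bool} (ha : ∀ k, a ∈ V Ω k) :
    ∃ w ∈ Ω, ∃ c : ℕ → Bool, (∀ k, c ∈ V Ω k) ∧ a = cat w c := by
  obtain ⟨w, hw, c, -, e⟩ := ha 1
  refine ⟨w, hw, c, fun k => ?_, e⟩
  obtain ⟨w', hw', c', hc', e'⟩ := ha (k + 1)
  have := (h.same hw hw' (e.symm.trans e')).2
  rwa [this]

theorem exists_tails (h : Code β Ω Q) {a : ℕ → Bool} (ha : ∀ k, a ∈ V Ω k) :
    ∃ (s : ℕ → List Bool) (b : ℕ → ℕ → Bool), b 0 = a ∧ (∀ k, s k ∈ Ω) ∧
      ∀ k, b k = cat (s k) (b (k + 1)) := by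
  have h1 : ∀ x : {a : ℕ → Bool // ∀ k, a ∈ V Ω k}, ∃ w ∈ Ω,
      ∃ y : {a : ℕ → Bool // ∀ k, a ∈ V Ω k}, x.1 = cat w y.1 := by
    intro x
    obtain ⟨w, hw, c, hc, e⟩ := h.tail x.2
    exact ⟨w, hw, ⟨c, hc⟩, e⟩
  choose w hw y hy using h1
  refine ⟨fun k => w (y^[k] ⟨a, ha⟩), fun k => (y^[k] ⟨a, ha⟩).1, rfl, fun k => hw _, fun k => ?_⟩
  show (y^[k] ⟨a, ha⟩).1 = cat (w (y^[k] ⟨a, ha⟩)) (y^[k + 1] ⟨a, ha⟩).1
  rw [Function.iterate_succ_apply']
  exact hy _

theorem ext (h : Code β Ω Q) (k : ℕ) : ∀ w : List Bool, ∃ r : List Bool,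
    ∀ a, cat (w ++ r) a ∈ V Ω k := by
  induction k with
  | zero => exact fun w => ⟨[], fun a => trivial⟩
  | succ k ih =>
    intro w
    obtain ⟨v, hv, ⟨t, rfl⟩ | ⟨t, rfl⟩⟩ := h.max w
    · obtain ⟨r, hr⟩ := ih t
      refine ⟨r, fun a => ⟨v, hv, _, hr a, ?_⟩⟩
      rw [List.append_assoc, cat_append]
    · obtain ⟨r, hr⟩ := ih []
      refine ⟨t ++ r, fun a => ⟨_, hv, _, hr a, ?_⟩⟩
      rw [List.nil_append, ← List.append_assoc, cat_append]

end Code

/-- The word of the first `n` digits. -/
def tk (x : ℕ → Bool) (n : ℕ) : List Bool := (List.range n).map x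

theorem tk_length (x : ℕ → Bool) (n : ℕ) : (tk x n).length = n := by simp [tk]

theorem eq_cat (v : List Bool) (c a : ℕ → Bool) (h : ∀ i < v.length, c i = cat v a i) :
    c = cat v (fun m => c (v.length + m)) := by
  induction v generalizing c with
  | nil => simp
  | cons b v ih =>
    funext n
    cases n with
    | zero => exact h 0 (by simp)
    | succ n =>
      have h1 := ih (fun n => c (n + 1)) (fun i hi => h (i + 1) (by simpa using hi))
      have h2 := congrFun h1 n
      have e : ∀ m, (b :: v).length + m = v.length + m + 1 := fun m => by simp; omega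
      simp only [e]
      exact h2

theorem cat_getElem (v : List Bool) (a : ℕ → Bool) (i : ℕ) (hi : i < v.length) :
    cat v a i = v[i] := by
  induction v generalizing i with
  | nil => simp at hi
  | cons b v ih =>
    cases i with
    | zero => rfl
    | succ i => exact ih i (by simpa using hi)

theorem cat_tk (x a : ℕ → Bool) (n i : ℕ) (hi : i < n) : cat (tk x n) a i = x i := by
  rw [cat_getElem _ _ _ (by rwa [tk_length])]
  simp [tk]

/-- Generic sequences. -/
def Gen (Ω : Set (List Bool)) : Set (ℕ → Bool) := {a | ∀ (u : List Bool) (k : ℕ), cat u a ∈ V Ω k}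

theorem Code.dense {β : ℝ} {Ω : Set (List Bool)} {Q : List Bool → List Bool} (h : Code β Ω Q)
    (x : ℕ → Bool) (n : ℕ) : ∃ a ∈ Gen Ω, ∀ i < n, a i = x i := by
  let O : List Bool × ℕ → Set (ℕ → Bool) := fun p =>
    {a | ∃ n, ∀ c, (∀ i < n, c i = a i) → cat p.1 c ∈ V Ω p.2}
  have hopen : ∀ p, IsOpen (O p) := by
    intro p
    rw [isOpen_iff_mem_nhds]
    rintro a ⟨n, hn⟩
    refine Filter.mem_of_superset ((PiNat.isOpen_cylinder (fun _ => Bool) a n).mem_nhds
      (PiNat.self_mem_cylinder a n)) ?_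
    intro c hc
    rw [PiNat.mem_cylinder_iff] at hc
    exact ⟨n, fun c' hc' => hn c' fun i hi => (hc' i hi).trans (hc i hi)⟩
  have hdense : ∀ p, Dense (O p) := by
    intro p
    rw [(PiNat.isTopologicalBasis_cylinders (fun _ => Bool)).dense_iff]
    rintro o ⟨x, n, rfl⟩ -
    obtain ⟨r, hr⟩ := h.ext p.2 (p.1 ++ tk x n)
    refine ⟨cat (tk x n ++ r) x, ?_, ?_⟩
    · rw [PiNat.mem_cylinder_iff]
      intro i hi
      rw [cat_append]
      exact cat_tk x _ n i hi
    · refine ⟨(tk x n ++ r).length, fun c hc => ?_⟩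
      rw [eq_cat _ c _ hc, ← cat_append, ← List.append_assoc]
      exact hr _
  have hD := dense_iInter_of_isOpen hopen hdense
  obtain ⟨a, ha, hax⟩ := (PiNat.isTopologicalBasis_cylinders (fun _ => Bool)).dense_iff.1 hD _
    ⟨x, n, rfl⟩ ⟨x, PiNat.self_mem_cylinder x n⟩
  refine ⟨a, fun u k => ?_, PiNat.mem_cylinder_iff.1 ha⟩
  obtain ⟨m, hm⟩ := Set.mem_iInter.1 hax (u, k)
  exact hm a fun i _ => rfl

end Pool.Agent.X114.FW
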