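import Pool.Agent.X114.FW.FW3

/-! The functional equations. -/

namespace Pool.Agent.X114.FW

open Filter Topology Polynomial

theorem greedy_right (β : ℝ) (hβ : 1 < β) (n : ℕ) : ∀ x : ℝ, ∃ ε > 0, ∀ y, x ≤ y → y < x + ε →
    ∀ i < n, greedy β y i = greedy β x i := by
  have hb : (0 : ℝ) < β := by linarith
  induction n with
  | zero => exact fun x => ⟨1, one_pos, fun y _ _ i hi => absurd hi (Nat.not_lt_zero _)⟩
  | succ n ih =>
    intro x
    by_cases hx : x < 1 / β
    · obtain ⟨ε, hε, h⟩ := ih (β * x)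
      refine ⟨min (ε / β) (1 / β - x), lt_min (by positivity) (by linarith), fun y hy1 hy2 i hi => ?_⟩
      have h1 : y < x + ε / β := hy2.trans_le (by gcongr; exact min_le_left _ _)
      have h2 : y < 1 / β := by
        have := hy2.trans_le (add_le_add_right (min_le_right (ε / β) (1 / β - x)) x)
        linarith
      rw [greedy_eq_cons β y, greedy_eq_cons β x]
      cases i with
      | zero =>
        show decide (1 / β ≤ y) = decide (1 / β ≤ x)
        rw [decide_eq_false (not_le.2 h2), decide_eq_false (not_le.2 hx)]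
      | succ i =>
        simp only [cons, greedyMap, hx, h2, if_true]
        refine h (β * y) (by nlinarith) ?_ i (by omega)
        have : β * y < β * (x + ε / β) := mul_lt_mul_of_pos_left h1 hb
        rw [mul_add, mul_div_cancel₀ _ hb.ne'] at this
        exact this
    · obtain ⟨ε, hε, h⟩ := ih (β * x - 1)
      refine ⟨ε / β, by positivity, fun y hy1 hy2 i hi => ?_⟩
      have h2 : ¬ y < 1 / β := fun h => hx (hy1.trans_lt h)
      rw [greedy_eq_cons β y, greedy_eq_cons β x]
      cases i with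
      | zero =>
        show decide (1 / β ≤ y) = decide (1 / β ≤ x)
        rw [decide_eq_true (not_lt.1 h2), decide_eq_true (not_lt.1 hx)]
      | succ i =>
        simp only [cons, greedyMap, hx, h2, if_false]
        refine h (β * y - 1) (by nlinarith) ?_ i (by omega)
        have : β * y < β * (x + ε / β) := mul_lt_mul_of_pos_left hy2 hb
        rw [mul_add, mul_div_cancel₀ _ hb.ne'] at this
        linarith

theorem val_close {K : Type} [NormedField K] [CompleteSpace K] {z : K} (hz : 1 < ‖z‖)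
    {a c : ℕ → Bool} {n : ℕ} (h : ∀ i < n, a i = c i) :
    ‖val z a - val z c‖ ≤ 2 / (‖z‖ - 1) / ‖z‖ ^ n := by
  have h1 : a = cat (tk a n) (fun m => a (n + m)) := by
    have := eq_cat (tk a n) a a (fun i hi => by
      rw [tk_length] at hi
      exact (cat_tk a a n i hi).symm)
    rwa [tk_length] at this
  have h2 : c = cat (tk a n) (fun m => c (n + m)) := by
    have := eq_cat (tk a n) c a (fun i hi => by
      rw [tk_length] at hi
      rw [cat_tk a a n i hi, h i hi])
    rwa [tk_length] at this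
  have v1 : val z a = wv z (tk a n) + val z (fun m => a (n + m)) / z ^ n := by
    have := val_cat hz (tk a n) (fun m => a (n + m))
    rwa [← h1, tk_length] at this
  have v2 : val z c = wv z (tk a n) + val z (fun m => c (n + m)) / z ^ n := by
    have := val_cat hz (tk a n) (fun m => c (n + m))
    rwa [← h2, tk_length] at this
  rw [v1, v2]
  have e : wv z (tk a n) + val z (fun m => a (n + m)) / z ^ n -
      (wv z (tk a n) + val z (fun m => c (n + m)) / z ^ n) =
      (val z (fun m => a (n + m)) - val z (fun m => c (n + m))) / z ^ n := by ring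
  rw [e, norm_div, norm_pow]
  refine div_le_div_of_nonneg_right ?_ (by positivity)
  refine (norm_sub_le _ _).trans ?_
  have h3 := norm_val_le hz (fun m => a (n + m))
  have h4 := norm_val_le hz (fun m => c (n + m))
  have e2 : 2 / (‖z‖ - 1) = 1 / (‖z‖ - 1) + 1 / (‖z‖ - 1) := by ring
  rw [e2]
  exact add_le_add h3 h4

theorem val_cons_real {β : ℝ} (hβ : 1 < β) (i : Bool) (a : ℕ → Bool) :
    val β (cons i a) = ((i.toNat : ℝ) + val β a) / β := val_cons (one_lt_norm hβ) i a

theorem Code.gen_val {β : ℝ} {Ω : Set (List Bool)} {Q : List Bool → List Bool} (h : Code β Ω Q)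
    (hβ : 1 < β) (hβ2 : β < 2) {γ : ℂ} (hγ : 1 < ‖γ‖)
    (hc : ∀ p : ℤ[X], aeval β p = 0 → aeval γ p = 0) {a : ℕ → Bool} (ha : a ∈ Gen Ω)
    (u : List Bool) : val γ (cat u a) = val γ (greedy β (val β (cat u a))) := by
  obtain ⟨s, b, hb0, hs, hb⟩ := h.exists_tails (ha u)
  have := h.val_eq hβ hβ2 hγ hc hs hb
  rw [hb0] at this
  exact this

theorem Code.equation {β : ℝ} {Ω : Set (List Bool)} {Q : List Bool → List Bool} (h : Code β Ω Q)
    (hβ : 1 < β) (hβ2 : β < 2) {γ : ℂ} (hγ : 1 < ‖γ‖)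
    (hc : ∀ p : ℤ[X], aeval β p = 0 → aeval γ p = 0) {x : ℝ} (h0 : 0 ≤ x) (h1 : x < 1 / (β - 1))
    (i : Bool) : val γ (greedy β ((x + (i.toNat : ℝ)) / β)) =
      (val γ (greedy β x) + (i.toNat : ℂ)) / γ := by
  have hb : (0 : ℝ) < β := by linarith
  have hγ0 : γ ≠ 0 := by rintro rfl; simp at hγ; linarith
  set C := 2 / (‖γ‖ - 1) with hC
  have hC0 : 0 < C := div_pos two_pos (by linarith)
  have key : ∀ n : ℕ, ‖val γ (greedy β ((x + (i.toNat : ℝ)) / β)) -
      (val γ (greedy β x) + (i.toNat : ℂ)) / γ‖ ≤ (2 * C) / ‖γ‖ ^ n := by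
    intro n
    obtain ⟨ε₁, hε₁, g1⟩ := greedy_right β hβ n x
    obtain ⟨ε₂, hε₂, g2⟩ := greedy_right β hβ n ((x + (i.toNat : ℝ)) / β)
    set η := min (min ε₁ (β * ε₂)) (1 / (β - 1) - x) / 2 with hη
    have hη0 : 0 < η := by
      have := lt_min (lt_min hε₁ (mul_pos hb hε₂)) (sub_pos.2 h1)
      positivity
    have hη1 : 2 * η ≤ ε₁ := by
      rw [hη, mul_div_cancel₀ _ two_ne_zero]
      exact (min_le_left _ _).trans (min_le_left _ _)
    have hη2 : 2 * η ≤ β * ε₂ := by
      rw [hη, mul_div_cancel₀ _ two_ne_zero]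
      exact (min_le_left _ _).trans (min_le_right _ _)
    have hη3 : 2 * η ≤ 1 / (β - 1) - x := by
      rw [hη, mul_div_cancel₀ _ two_ne_zero]
      exact min_le_right _ _
    obtain ⟨m, hm⟩ : ∃ m : ℕ, 2 / (β - 1) / β ^ m < η := by
      have hlim : Tendsto (fun m : ℕ => 2 / (β - 1) / β ^ m) atTop (𝓝 0) :=
        tendsto_const_nhds.div_atTop (tendsto_pow_atTop_atTop_of_one_lt hβ)
      exact (hlim.eventually (gt_mem_nhds hη0)).exists
    obtain ⟨a, ha, hax⟩ := h.dense (greedy β (x + η)) m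
    have hclose := val_close (one_lt_norm hβ) hax
    rw [Real.norm_eq_abs β, abs_of_pos hb,
      val_greedy hβ hβ2 (by linarith) (by linarith : x + η ≤ 1 / (β - 1)), Real.norm_eq_abs] at hclose
    have hclose' := abs_lt.1 (hclose.trans_lt hm)
    set y := val β a with hy
    have hy1 : x ≤ y := by linarith [hclose'.1]
    have hy2 : y < x + 2 * η := by linarith [hclose'.2]
    have e1 := h.gen_val hβ hβ2 hγ hc ha []
    rw [cat_nil, ← hy] at e1
    have e2 := h.gen_val hβ hβ2 hγ hc ha [i]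
    rw [cat_cons, cat_nil, val_cons_real hβ, ← hy, val_cons hγ, e1, add_comm (i.toNat : ℝ) y] at e2
    have f1 : ‖val γ (greedy β y) - val γ (greedy β x)‖ ≤ C / ‖γ‖ ^ n :=
      val_close hγ (g1 y hy1 (by linarith))
    have f2 : ‖val γ (greedy β ((y + (i.toNat : ℝ)) / β)) -
        val γ (greedy β ((x + (i.toNat : ℝ)) / β))‖ ≤ C / ‖γ‖ ^ n := by
      refine val_close hγ (g2 _ ?_ ?_)
      · gcongr
      · rw [div_lt_iff₀ hb, add_mul, div_mul_cancel₀ _ hb.ne']
        linarith
    have e3 : val γ (greedy β ((x + (i.toNat : ℝ)) / β)) -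
        (val γ (greedy β x) + (i.toNat : ℂ)) / γ =
        (val γ (greedy β y) - val γ (greedy β x)) / γ -
        (val γ (greedy β ((y + (i.toNat : ℝ)) / β)) -
          val γ (greedy β ((x + (i.toNat : ℝ)) / β))) := by
      rw [← e2]
      ring
    rw [e3]
    refine (norm_sub_le _ _).trans ?_
    have f3 : ‖(val γ (greedy β y) - val γ (greedy β x)) / γ‖ ≤ C / ‖γ‖ ^ n := by
      rw [norm_div]
      exact (div_le_self (norm_nonneg _) hγ.le).trans f1
    have e4 : 2 * C / ‖γ‖ ^ n = C / ‖γ‖ ^ n + C / ‖γ‖ ^ n := by ring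
    rw [e4]
    exact add_le_add f3 f2
  have hlim : Tendsto (fun n : ℕ => 2 * C / ‖γ‖ ^ n) atTop (𝓝 0) :=
    tendsto_const_nhds.div_atTop (tendsto_pow_atTop_atTop_of_one_lt hγ)
  have h3 := ge_of_tendsto' hlim key
  exact sub_eq_zero.1 (norm_eq_zero.1 (le_antisymm h3 (norm_nonneg _)))

end Pool.Agent.X114.FW
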