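import Mathlib

/-! Two commensurability relations and a function with `G(x/β) = G(x)/γ`,
`G((x+1)/β) = (G(x)+1)/γ`. -/

namespace Pool.Agent.X114.FW

open Filter Topology Polynomial

structure Fun (β : ℝ) (γ : ℂ) (M : ℝ) (G : ℝ → ℂ) : Prop where
  one_lt : 1 < β
  lt_two : β < 2
  hM : M = 1 / (β - 1)
  norm : 1 < ‖γ‖
  zero : ∀ x, 0 ≤ x → x < M → G (x / β) = G x / γ
  one : ∀ x, 0 ≤ x → x < M → G ((x + 1) / β) = (G x + 1) / γ
  bdd : ∃ C, ∀ x, ‖G x‖ ≤ C

/-- `G(y + δ) = G(y) + c`. -/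
def Rel (M : ℝ) (G : ℝ → ℂ) (δ : ℝ) (c : ℂ) : Prop :=
  ∀ y, 0 ≤ y → y + δ < M → G (y + δ) = G y + c

namespace Fun

variable {β M : ℝ} {γ : ℂ} {G : ℝ → ℂ}

theorem pos (h : Fun β γ M G) : 0 < β := by linarith [h.one_lt]

theorem γ0 (h : Fun β γ M G) : γ ≠ 0 := by
  rintro rfl
  have := h.norm
  simp at this
  linarith

theorem M_eq (h : Fun β γ M G) : β * M = M + 1 := by
  have : β - 1 ≠ 0 := by linarith [h.one_lt]
  rw [h.hM]
  field_simp
  ring

theorem M_gt (h : Fun β γ M G) : 1 < M := by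
  rw [h.hM, lt_div_iff₀ (by linarith [h.one_lt])]
  linarith [h.lt_two]

theorem rel_one (h : Fun β γ M G) : Rel M G 1 1 := by
  intro y hy hy1
  have h1 := h.one y hy (by linarith)
  have h2 := h.zero (y + 1) (by linarith) hy1
  rw [h1, div_left_inj' h.γ0] at h2
  exact h2.symm

theorem rel_mul (h : Fun β γ M G) {δ : ℝ} {c : ℂ} (hδ : 0 ≤ δ) (hr : Rel M G δ c) :
    Rel M G (β * δ) (γ * c) := by
  intro y hy hy1
  have hb := h.pos
  have hbd : 0 ≤ β * δ := by positivity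
  have e : (y + β * δ) / β = y / β + δ := by field_simp
  have h1 := h.zero y hy (by linarith)
  have h2 := h.zero (y + β * δ) (by positivity) hy1
  have h3 : y / β + δ < M := by
    rw [← e, div_lt_iff₀ hb]
    nlinarith [h.M_gt, h.one_lt]
  rw [e, hr (y / β) (by positivity) h3, h1] at h2
  rw [eq_div_iff h.γ0] at h2
  rw [← h2]
  have := h.γ0
  field_simp

theorem rel_sub (h : Fun β γ M G) {δ : ℝ} {c : ℂ} (_ : 0 ≤ δ) (hd : 0 < β * δ - 1)
    (hr : Rel M G δ c) : Rel M G (β * δ - 1) (γ * c - 1) := by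
  intro y hy hy1
  have hb := h.pos
  have e : (y + (β * δ - 1) + 1) / β = y / β + δ := by field_simp; ring
  have h1 := h.zero y hy (by linarith)
  have h2 := h.one (y + (β * δ - 1)) (by linarith) hy1
  have h3 : y / β + δ < M := by
    rw [← e, div_lt_iff₀ hb]
    linarith [h.M_eq]
  rw [e, hr (y / β) (by positivity) h3, h1] at h2
  rw [eq_div_iff h.γ0] at h2
  have h4 : G (y + (β * δ - 1)) = (G y / γ + c) * γ - 1 := by rw [h2]; ring
  rw [h4]
  have := h.γ0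
  field_simp
  ring

theorem rel_neg (h : Fun β γ M G) {δ : ℝ} {c : ℂ} (_ : 0 ≤ δ) (hd : 0 < 1 - β * δ)
    (hr : Rel M G δ c) : Rel M G (1 - β * δ) (1 - γ * c) := by
  intro y hy hy1
  have hb := h.pos
  have e : (y + 1) / β = (y + (1 - β * δ)) / β + δ := by field_simp; ring
  have h1 := h.zero (y + (1 - β * δ)) (by linarith) hy1
  have h2 := h.one y hy (by linarith)
  have h3 : (y + (1 - β * δ)) / β + δ < M := by
    rw [← e, div_lt_iff₀ hb]
    linarith [h.M_eq]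
  rw [e, hr _ (div_nonneg (by linarith) hb.le) h3, h1] at h2
  rw [eq_div_iff h.γ0] at h2
  have h4 : G y = (G (y + (1 - β * δ)) / γ + c) * γ - 1 := by rw [h2]; ring
  rw [h4]
  have := h.γ0
  field_simp
  ring

/-- Either a short relation exists, or `β` is a multinacci number. -/
theorem exists_short (h : Fun β γ M G) (hβ : ∀ n : ℕ, β ^ n * (2 - β) ≠ 1) :
    ∃ (δ : ℝ) (c : ℂ) (p : ℤ[X]), 0 < δ ∧ (1 + β) * δ ≤ M ∧ Rel M G δ c ∧ aeval β p = δ ∧
      aeval γ p = c := by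
  by_contra hcon
  have hb := h.pos
  have hM := h.M_eq
  have hM1 := h.M_gt
  have key : ∀ n : ℕ, ∃ p : ℤ[X], aeval β p = M - β ^ n * (M - 1) ∧
      0 < M - β ^ n * (M - 1) ∧ M - β ^ n * (M - 1) ≤ 1 ∧
      Rel M G (M - β ^ n * (M - 1)) (aeval γ p) := by
    intro n
    induction n with
    | zero => 
      have e : M - β ^ 0 * (M - 1) = 1 := by ring
      refine ⟨1, ?_, ?_, ?_, ?_⟩
      · rw [e]; simp
      · rw [e]; norm_num
      · rw [e]
      · rw [e]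
        simpa using h.rel_one
    | succ n ih =>
      obtain ⟨p, hp, h0, h1, hr⟩ := ih
      set δ := M - β ^ n * (M - 1) with hδ
      have hlong : M < (1 + β) * δ := by
        by_contra hc
        exact hcon ⟨δ, _, p, h0, not_lt.1 hc, hr, hp, rfl⟩
      have e : M - β ^ (n + 1) * (M - 1) = β * δ - 1 := by
        rw [hδ, pow_succ]; linear_combination -hM
      rw [e]
      rcases lt_trichotomy (β * δ) 1 with h2 | h2 | h2
      · exfalso
        refine hcon ⟨1 - β * δ, 1 - γ * aeval γ p, 1 - X * p, by linarith, ?_,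
          h.rel_neg h0.le (by linarith) hr, by simp [hp], by simp⟩
        nlinarith [h.lt_two]
      · exfalso
        have hM0 : M ≠ 0 := by linarith
        have h3 : M = β ^ (n + 1) * (M - 1) := by linarith
        have h4 : M - 1 = (2 - β) * M := by linarith
        rw [h4] at h3
        apply hβ (n + 1)
        have h5 : β ^ (n + 1) * (2 - β) * M = 1 * M := by linarith
        exact mul_right_cancel₀ hM0 h5
      · refine ⟨X * p - 1, by simp [hp], by linarith, ?_, ?_⟩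
        · nlinarith [h.lt_two]
        · have := h.rel_sub h0.le (by linarith) hr
          simpa using this
  have hlim := (tendsto_pow_atTop_atTop_of_one_lt h.one_lt).eventually_gt_atTop (M / (M - 1))
  obtain ⟨n, hn⟩ := hlim.exists
  obtain ⟨p, -, h0, -⟩ := key n
  rw [div_lt_iff₀ (by linarith)] at hn
  linarith

theorem eq_of_short (h : Fun β γ M G) {δ : ℝ} {c : ℂ} (h0 : 0 < δ) (h1 : (1 + β) * δ ≤ M)
    (hr : Rel M G δ c) (hc : c ≠ 0) : γ = β := by
  have hb := h.pos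
  obtain ⟨C, hC⟩ := h.bdd
  have hr2 := h.rel_mul h0.le hr
  have key : ∀ k : ℕ, ∃ m n : ℕ, m + n = k ∧ 0 ≤ (m : ℝ) * (β * δ) - n * δ ∧
      (m : ℝ) * (β * δ) - n * δ < (1 + β) * δ ∧
      G ((m : ℝ) * (β * δ) - n * δ) = G 0 + (m * γ - n) * c := by
    intro k
    induction k with
    | zero =>
      refine ⟨0, 0, rfl, by simp, ?_, by simp⟩
      simp
      positivity
    | succ k ih =>
      obtain ⟨m, n, hk, a1, a2, a3⟩ := ih
      set y := (m : ℝ) * (β * δ) - n * δ with hy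
      by_cases hyd : y < δ
      · have e : ((m + 1 : ℕ) : ℝ) * (β * δ) - n * δ = y + β * δ := by
          rw [hy]; push_cast; ring
        have h2 : y + β * δ < (1 + β) * δ := by linarith
        refine ⟨m + 1, n, by omega, ?_, ?_, ?_⟩
        · rw [e]; positivity
        · rw [e]; exact h2
        · rw [e, hr2 y a1 (h2.trans_le h1), a3]
          push_cast
          ring
      · have e : (m : ℝ) * (β * δ) - ((n + 1 : ℕ) : ℝ) * δ = y - δ := by
          rw [hy]; push_cast; ring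
        refine ⟨m, n + 1, by omega, ?_, ?_, ?_⟩
        · rw [e]; linarith
        · rw [e]; linarith
        · rw [e]
          have h3 := hr (y - δ) (by linarith) (by linarith)
          rw [sub_add_cancel, a3] at h3
          have h4 : G (y - δ) = G 0 + (m * γ - n) * c - c := by rw [h3]; ring
          rw [h4]
          push_cast
          ring
  by_contra hne
  have hne' : 0 < ‖γ - β‖ := norm_pos_iff.2 (sub_ne_zero.2 hne)
  have hc' : 0 < ‖c‖ := norm_pos_iff.2 hc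
  set K := (2 * C / ‖c‖ + (1 + β)) / ‖γ - β‖ with hK
  obtain ⟨k, hk⟩ := exists_nat_gt (K + K * β + (1 + β))
  obtain ⟨m, n, hmn, a1, a2, a3⟩ := key k
  have b1 : |(m : ℝ) * β - n| ≤ 1 + β := by
    have e : (m : ℝ) * (β * δ) - n * δ = (m * β - n) * δ := by ring
    rw [e] at a1 a2
    have c1 : 0 ≤ (m : ℝ) * β - n := nonneg_of_mul_nonneg_left a1 h0
    have c2 : (m : ℝ) * β - n < 1 + β := lt_of_mul_lt_mul_right a2 h0.le
    rw [abs_of_nonneg c1]
    exact c2.le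
  have b2 : ‖((m : ℂ) * γ - n) * c‖ ≤ 2 * C := by
    have e : ((m : ℂ) * γ - n) * c = G ((m : ℝ) * (β * δ) - n * δ) - G 0 := by rw [a3]; ring
    rw [e]
    refine (norm_sub_le _ _).trans ?_
    linarith [hC ((m : ℝ) * (β * δ) - n * δ), hC 0]
  have b3 : ‖(m : ℂ) * γ - n‖ ≤ 2 * C / ‖c‖ := by
    rw [le_div_iff₀ hc', ← norm_mul]
    exact b2
  have b4 : (m : ℝ) * ‖γ - β‖ ≤ 2 * C / ‖c‖ + (1 + β) := by
    have e : (m : ℂ) * (γ - β) = ((m : ℂ) * γ - n) - (((m : ℝ) * β - n : ℝ) : ℂ) := by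
      push_cast; ring
    have e2 : (m : ℝ) * ‖γ - β‖ = ‖(m : ℂ) * (γ - β)‖ := by
      rw [norm_mul, Complex.norm_natCast]
    rw [e2, e]
    refine (norm_sub_le _ _).trans (add_le_add b3 ?_)
    rw [Complex.norm_real, Real.norm_eq_abs]
    exact b1
  have b5 : (m : ℝ) ≤ K := by
    rw [hK, le_div_iff₀ hne']
    exact b4
  have b6 : (n : ℝ) ≤ m * β + (1 + β) := by
    have := (abs_le.1 b1).1
    linarith
  have b7 : (k : ℝ) = m + n := by rw [← hmn]; push_cast; ring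
  have b8 : (m : ℝ) * β ≤ K * β := mul_le_mul_of_nonneg_right b5 hb.le
  linarith

end Fun

theorem multinacci {β : ℝ} {γ : ℂ} (h1 : 1 < β) (h2 : β < 2) (hγ : 1 < ‖γ‖) {n : ℕ}
    (hβn : β ^ n * (2 - β) = 1) (hγn : γ ^ n * (2 - γ) = 1) : γ = β := by
  by_contra hne
  have hb : (0 : ℝ) < β := by linarith
  have hγ0 : γ ≠ 0 := by rintro rfl; simp at hγ; linarith
  have hβ0 : (β : ℂ) ≠ 0 := by exact_mod_cast hb.ne'
  have e1 : 2 - γ = (γ⁻¹) ^ n := by
    rw [inv_pow]; exact eq_inv_of_mul_eq_one_right hγn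
  have e2 : 2 - β = (β⁻¹) ^ n := by
    rw [inv_pow]; exact eq_inv_of_mul_eq_one_right hβn
  have e2' : 2 - (β : ℂ) = ((β : ℂ)⁻¹) ^ n := by
    have := congrArg (fun t : ℝ => (t : ℂ)) e2
    push_cast at this
    exact this
  have e3 : γ - β = ((β : ℂ)⁻¹) ^ n - (γ⁻¹) ^ n := by rw [← e1, ← e2']; ring
  have e4 : (∑ i ∈ Finset.range n, ((β : ℂ)⁻¹) ^ i * (γ⁻¹) ^ (n - 1 - i)) * ((β : ℂ)⁻¹ - γ⁻¹) =
      ((β : ℂ)⁻¹) ^ n - (γ⁻¹) ^ n := (Commute.all _ _).geom_sum₂_mul n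
  have e5 : (β : ℂ)⁻¹ - γ⁻¹ = (γ - β) * ((β : ℂ)⁻¹ * γ⁻¹) := by field_simp
  have e6 : (∑ i ∈ Finset.range n, ((β : ℂ)⁻¹) ^ i * (γ⁻¹) ^ (n - 1 - i)) *
      ((β : ℂ)⁻¹ * γ⁻¹) = 1 := by
    have h3 : γ - β ≠ 0 := sub_ne_zero.2 hne
    apply mul_right_cancel₀ h3
    rw [one_mul]
    calc (∑ i ∈ Finset.range n, ((β : ℂ)⁻¹) ^ i * (γ⁻¹) ^ (n - 1 - i)) * ((β : ℂ)⁻¹ * γ⁻¹) *
          (γ - β)
        = (∑ i ∈ Finset.range n, ((β : ℂ)⁻¹) ^ i * (γ⁻¹) ^ (n - 1 - i)) *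
          ((γ - β) * ((β : ℂ)⁻¹ * γ⁻¹)) := by ring
      _ = (∑ i ∈ Finset.range n, ((β : ℂ)⁻¹) ^ i * (γ⁻¹) ^ (n - 1 - i)) *
          ((β : ℂ)⁻¹ - γ⁻¹) := by rw [← e5]
      _ = _ := e4
      _ = _ := e3.symm
  have e7 : ∑ i ∈ Finset.range n, (β⁻¹) ^ i = β := by
    have h4 : (β⁻¹ - 1) ≠ 0 := by
      have : β⁻¹ < 1 := inv_lt_one_of_one_lt₀ h1
      linarith
    rw [geom_sum_eq (by intro h; exact h4 (by rw [h]; ring)), ← e2, div_eq_iff h4]
    field_simp
    ring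
  have h5 : ‖γ⁻¹‖ < 1 := by
    rw [norm_inv]
    exact inv_lt_one_of_one_lt₀ hγ
  have h6 : ‖∑ i ∈ Finset.range n, ((β : ℂ)⁻¹) ^ i * (γ⁻¹) ^ (n - 1 - i)‖ ≤ β := by
    refine le_trans ?_ e7.le
    refine (norm_sum_le _ _).trans (Finset.sum_le_sum fun i _ => ?_)
    rw [norm_mul, norm_pow, norm_inv, Complex.norm_real, Real.norm_eq_abs, abs_of_pos hb, norm_pow]
    exact mul_le_of_le_one_right (by positivity) (pow_le_one₀ (norm_nonneg _) h5.le)
  have h7 := congrArg norm e6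
  rw [norm_mul, norm_mul, norm_inv (β : ℂ), Complex.norm_real, Real.norm_eq_abs, abs_of_pos hb,
    norm_one] at h7
  have h8 : ‖∑ i ∈ Finset.range n, ((β : ℂ)⁻¹) ^ i * (γ⁻¹) ^ (n - 1 - i)‖ * (β⁻¹ * ‖γ⁻¹‖) ≤
      β * (β⁻¹ * ‖γ⁻¹‖) := mul_le_mul_of_nonneg_right h6 (by positivity)
  rw [h7, ← mul_assoc, mul_inv_cancel₀ hb.ne', one_mul] at h8
  linarith

end Pool.Agent.X114.FW
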