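import Pool.Agent.X114.FW.FW4
import Pool.Agent.X114.FW.FW5

/-! The finite word property forces the conjugates into the closed unit disc. -/

namespace Pool.Agent.X114.FW

open Filter Topology Polynomial

theorem wv_replicate {β : ℝ} (hβ : 1 < β) (K : ℕ) :
    wv β (List.replicate K true) = (1 - 1 / β ^ K) / (β - 1) := by
  have hb : (0 : ℝ) < β := by linarith
  have h1 : β - 1 ≠ 0 := by linarith
  induction K with
  | zero => simp [wv]
  | succ K ih =>
    rw [List.replicate_succ, wv, ih, pow_succ]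
    simp only [Bool.toNat_true, Nat.cast_one]
    field_simp
    ring

theorem exists_replicate {β : ℝ} (hβ : 1 < β) (hβ2 : β < 2) :
    ∃ K : ℕ, 1 ≤ wv β (List.replicate K true) := by
  have hb : (0 : ℝ) < β := by linarith
  have hlim : Tendsto (fun K : ℕ => 1 / β ^ K) atTop (𝓝 0) :=
    tendsto_const_nhds.div_atTop (tendsto_pow_atTop_atTop_of_one_lt hβ)
  obtain ⟨K, hK⟩ := (hlim.eventually (gt_mem_nhds (by linarith : (0 : ℝ) < 2 - β))).exists
  refine ⟨K, ?_⟩
  rw [wv_replicate hβ, le_div_iff₀ (by linarith)]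
  linarith

theorem Code.isIntegral {β : ℝ} {Ω : Set (List Bool)} {Q : List Bool → List Bool}
    (h : Code β Ω Q) (hβ : 1 < β) (hβ2 : β < 2) : IsIntegral ℤ β := by
  have hb : (0 : ℝ) < β := by linarith
  obtain ⟨K, hK⟩ := exists_replicate hβ hβ2
  obtain ⟨a, ha, hax⟩ := h.dense (cat (false :: List.replicate K true) (fun _ => false)) (K + 1)
  obtain ⟨s, b, hb0, hs, hbk⟩ := h.exists_tails (ha [])
  rw [cat_nil] at hb0
  have hex : ∃ k, Q (s k) ≠ s k := by
    by_contra hcon
    push Not at hcon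
    have h1 : IsConcat s a := ⟨b, hb0, hbk⟩
    have h2 := h.conc s a hs h1
    simp only [hcon] at h2
    have h3 := concat_unique (fun k => h.ne (hs k)) h1 h2
    have h4 : a 0 = decide (1 / β ≤ val β a) := congrFun h3 0
    have h5 : a 0 = false := hax 0 (by omega)
    have h7 := eq_cat (false :: List.replicate K true) a (fun _ => false) (fun i hi => by
      simp at hi
      exact hax i (by omega))
    have h8 : val β a = _ := (congrArg (val β) h7).trans (val_cat (one_lt_norm hβ) _ _)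
    have h9 : wv β (false :: List.replicate K true) = wv β (List.replicate K true) / β := by
      simp [wv]
    have h10 : 1 / β ≤ val β a := by
      rw [h8, h9]
      have h11 : 1 / β ≤ wv β (List.replicate K true) / β := by gcongr
      refine h11.trans (le_add_of_nonneg_right ?_)
      exact div_nonneg (val_nonneg hβ _) (by positivity)
    rw [h5, decide_eq_true h10] at h4
    exact Bool.false_ne_true h4
  obtain ⟨k, hk⟩ := hex
  obtain ⟨p, hp, hp'⟩ := exists_monic (h.len _ (hs k)) hk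
  have h1 := h.wv_eq hβ hβ2 hs hbk k
  have h2 : aeval β (pw (Q (s k)) - pw (s k)) = 0 := by
    rw [map_sub, aeval_pw hb.ne', aeval_pw hb.ne', h.len _ (hs k), ← h1, sub_self]
  refine ⟨p, hp, ?_⟩
  rw [← aeval_def]
  rcases hp' with rfl | rfl
  · exact h2
  · rw [map_neg, h2, neg_zero]

theorem Code.conj {β : ℝ} {Ω : Set (List Bool)} {Q : List Bool → List Bool}
    (h : Code β Ω Q) (hβ : 1 < β) (hβ2 : β < 2) {γ : ℂ}
    (hγβ : aeval γ (minpoly ℚ β) = 0) (hne : γ ≠ β) : ‖γ‖ ≤ 1 := by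
  by_contra hcon
  have hγ : 1 < ‖γ‖ := not_le.1 hcon
  have hb : (0 : ℝ) < β := by linarith
  have hint : IsIntegral ℚ β := (h.isIntegral hβ hβ2).tower_top
  have hmin : minpoly ℚ β = minpoly ℚ γ :=
    minpoly.eq_of_irreducible_of_monic (minpoly.irreducible hint) hγβ (minpoly.monic hint)
  have hc : ∀ p : ℤ[X], aeval β p = 0 → aeval γ p = 0 := by
    intro p hp
    have h1 : aeval β (p.map (algebraMap ℤ ℚ)) = 0 := by rwa [aeval_map_algebraMap]
    obtain ⟨q, hq⟩ := minpoly.dvd ℚ β h1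
    rw [← aeval_map_algebraMap ℚ, hq, map_mul, hγβ, zero_mul]
  have hc' : ∀ p : ℤ[X], aeval γ p = 0 → aeval β p = 0 := by
    intro p hp
    have h1 : aeval γ (p.map (algebraMap ℤ ℚ)) = 0 := by rwa [aeval_map_algebraMap]
    obtain ⟨q, hq⟩ := minpoly.dvd ℚ γ h1
    rw [← aeval_map_algebraMap ℚ, hq, map_mul, ← hmin, minpoly.aeval, zero_mul]
  have hF : Fun β γ (1 / (β - 1)) (fun x => val γ (greedy β x)) := by
    refine ⟨hβ, hβ2, rfl, hγ, fun x h0 h1 => ?_, fun x h0 h1 => ?_, 1 / (‖γ‖ - 1),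
      fun x => norm_val_le hγ _⟩
    · have := h.equation hβ hβ2 hγ hc h0 h1 false
      simpa using this
    · have := h.equation hβ hβ2 hγ hc h0 h1 true
      simpa using this
  by_cases hm : ∃ n : ℕ, β ^ n * (2 - β) = 1
  · obtain ⟨n, hn⟩ := hm
    have h1 : aeval β (X ^ n * (1 + 1 - X) - 1 : ℤ[X]) = 0 := by
      have e : β ^ n * (1 + 1 - β) - 1 = 0 := by linarith
      simpa using e
    have h2 := hc _ h1
    have h3 : γ ^ n * (2 - γ) = 1 := by
      have h4 : γ ^ n * (1 + 1 - γ) - 1 = 0 := by simpa using h2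
      have h5 : γ ^ n * (2 - γ) = γ ^ n * (1 + 1 - γ) := by ring
      rw [h5]
      exact sub_eq_zero.1 h4
    exact hne (multinacci hβ hβ2 hγ hn h3)
  · obtain ⟨δ, c, p, h0, h1, hr, hp, hp'⟩ := hF.exists_short (not_exists.1 hm)
    refine hne (hF.eq_of_short h0 h1 hr ?_)
    intro hc0
    rw [hc0] at hp'
    have := hc' p hp'
    rw [hp] at this
    exact h0.ne' this

theorem main {β : ℝ} (hβ : 1 < β) (hβ2 : β < 2) (h : FiniteWordProperty β) :
    IsIntegral ℤ β ∧ ∀ γ : ℂ, aeval γ (minpoly ℚ β) = 0 → γ ≠ β → ‖γ‖ ≤ 1 := by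
  obtain ⟨Ω, h0, hp, hs, ⟨Q, hl, hc⟩, -⟩ := h
  have hcode : Code β Ω Q := ⟨h0, hp, maximal h0 hp hs, hl, hc⟩
  exact ⟨hcode.isIntegral hβ hβ2, fun γ h1 h2 => hcode.conj hβ hβ2 h1 h2⟩

end Pool.Agent.X114.FW
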